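import Pool.Agent.H814R3.EK.Fin

/-!
# The Riemann hypothesis for `L(E_D/ℚ(ζ_q), s)` and averages of point counts

`E_D : y² = x³ - D² x`, `D` odd and squarefree, over the cyclotomic fields `K = ℚ(ζ_q)`, `q` prime to
`2 D`.  The Euler product over the primes `v` of `K` extends to an entire function `F`, and, with
`EP(x)` the product of `#E_D(k_v) / q_v` over the primes `v` of good reduction with `q_v ≤ x`, and
`LA(x)` the logarithmic average over `n ≤ x` of `log EP(n) - κ log log n`:

* `F` has no zero with `Re s > 1` if and only if `LA` is bounded above for some real `κ`;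
* `LA` is bounded above if and only if `F` has no zero with `Re s > 1` and `ord_{s=1} F ≤ κ`;
* `LA` is bounded if and only if `F` has no zero with `Re s > 1` and `ord_{s=1} F = κ`.

There is no hypothesis: the continuation and the polynomial growth of `F` are proved.  (The theorem
`MP_32c55d_nt.AveragedProducts` of helper820 has the same equivalences over every number field, with
the continuation and the growth as hypotheses.)
-/

set_option autoImplicit false

open Filter NumberField

namespace Pool.Agent.Results.MP_fb225e_nt.CyclotomicAverages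

open Pool.Agent.H438R3.BSD.NF

/-- See the introduction. -/
theorem result (D q : ℕ) (hD : Odd D) (hsf : Squarefree D) (hq : 1 ≤ q)
    (hqD : Nat.Coprime q (2 * D)) (K : Type) [Field K] [NumberField K]
    [IsCyclotomicExtension {q} ℚ K] :
    ∃ F : ℂ → ℂ, IsL (-(D : 𝓞 K) ^ 2) 0 F ∧ ∃ m : ℕ, analyticOrderAt F 1 = m ∧
      ((∀ s : ℂ, 1 < s.re → F s ≠ 0) ↔
        ∃ κ C : ℝ, ∀ n : ℕ, LA (-(D : 𝓞 K) ^ 2) 0 κ n ≤ C) ∧ ∀ κ : ℝ,
      ((∃ C : ℝ, ∀ n : ℕ, LA (-(D : 𝓞 K) ^ 2) 0 κ n ≤ C) ↔
        (∀ s : ℂ, 1 < s.re → F s ≠ 0) ∧ (m : ℝ) ≤ κ) ∧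
      ((∃ C : ℝ, ∀ n : ℕ, |LA (-(D : 𝓞 K) ^ 2) 0 κ n| ≤ C) ↔
        (∀ s : ℂ, 1 < s.re → F s ≠ 0) ∧ κ = m) :=
  Pool.Agent.H814R3.EK.cyclotomic D q hD hsf hq hqD K

end Pool.Agent.Results.MP_fb225e_nt.CyclotomicAverages
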