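import Pool.Agent.H82R3.EK.Main

/-!
# The zeros of `L(E_D/ℚ(ζ_q), s)` on the line `Re s = 1`

`E_D : y² = x³ - D² x`, `D` odd and squarefree, over the cyclotomic fields `K = ℚ(ζ_q)`, `q` prime to
`2 D`.  Each `L(E_D/K, s)` (Euler product over the primes `v` of `K`) is entire, and in the average over
`X < q ≤ Y` at least 67.2% of the zeros with `1/2 < Re s < 3/2`, `T < Im s ≤ 2T` lie on `Re s = 1`.
-/

set_option autoImplicit false

open Complex NumberField IsDedekindDomain

namespace Pool.Agent.Results.MP_fb225e_nt.CyclotomicFamily672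

/-- The Weierstrass equation `y² = x³ - D² x` over a ring `R`. -/
noncomputable def curve (D : ℕ) (R : Type) [CommRing R] : WeierstrassCurve R :=
  ⟨0, 0, 0, -(D : R) ^ 2, 0⟩

/-- The local factor at the prime `v` of `K` of a Weierstrass equation `W` over the ring of integers:
`(1 - a_v (Nv)^(-s) + ε (Nv)^(1-2s))⁻¹`, where `a_v` is `Nv` minus the number of affine solutions `(x, y)` of
the equation over the residue field `𝓞 K / v`, and `ε` is `0` if `v` divides the discriminant, `1` otherwise. -/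
noncomputable def factor {K : Type} [Field K] [NumberField K] (W : WeierstrassCurve (𝓞 K)) (s : ℂ)
    (v : HeightOneSpectrum (𝓞 K)) : ℂ :=
  (1 - ((((Ideal.absNorm v.asIdeal : ℕ) : ℤ) -
          ((Nat.card {p : (𝓞 K ⧸ v.asIdeal) × (𝓞 K ⧸ v.asIdeal) //
            p.2 ^ 2 + Ideal.Quotient.mk v.asIdeal W.a₁ * p.1 * p.2
              + Ideal.Quotient.mk v.asIdeal W.a₃ * p.2
            = p.1 ^ 3 + Ideal.Quotient.mk v.asIdeal W.a₂ * p.1 ^ 2
              + Ideal.Quotient.mk v.asIdeal W.a₄ * p.1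
              + Ideal.Quotient.mk v.asIdeal W.a₆} : ℕ) : ℤ) : ℤ) : ℂ)
          * ((Ideal.absNorm v.asIdeal : ℕ) : ℂ) ^ (-s)
      + (open Classical in if W.Δ ∈ v.asIdeal then (0 : ℂ) else 1)
          * ((Ideal.absNorm v.asIdeal : ℕ) : ℂ) ^ (1 - 2 * s))⁻¹

/-- The zeros of `F` with `1/2 < Re s < 3/2` and `T < Im s ≤ 2T`. -/
def zeros (F : ℂ → ℂ) (T : ℝ) : Set ℂ :=
  {s : ℂ | 1 / 2 < s.re ∧ s.re < 3 / 2 ∧ T < s.im ∧ s.im ≤ 2 * T ∧ F s = 0}

/-- The number of these zeros, counted with multiplicity. -/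
noncomputable def N (F : ℂ → ℂ) (T : ℝ) : ℕ := ∑ᶠ s ∈ zeros F T, analyticOrderNatAt F s

/-- The number of those of them that lie on the line `Re s = 1`, counted with multiplicity. -/
noncomputable def N₀ (F : ℂ → ℂ) (T : ℝ) : ℕ :=
  ∑ᶠ s ∈ {s : ℂ | s ∈ zeros F T ∧ s.re = 1}, analyticOrderNatAt F s

/-! ### Translation from the analytic normalisation -/

theorem order_shift (L : ℂ → ℂ) (s : ℂ) :
    analyticOrderNatAt (fun z => L (z - 1 / 2)) (s + 1 / 2) = analyticOrderNatAt L s := by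
  have hg : AnalyticAt ℂ (fun z : ℂ => z - 1 / 2) (s + 1 / 2) := by fun_prop
  have hd : deriv (fun z : ℂ => z - 1 / 2) (s + 1 / 2) ≠ 0 := by
    simp
  have h := analyticOrderAt_comp_of_deriv_ne_zero (f := L) hg hd
  unfold analyticOrderNatAt
  have h2 : (fun z : ℂ => L (z - 1 / 2)) = L ∘ (fun z : ℂ => z - 1 / 2) := rfl
  rw [h2, h]
  norm_num

theorem mem_shift (L : ℂ → ℂ) (T : ℝ) (s : ℂ) :
    s + 1 / 2 ∈ zeros (fun z => L (z - 1 / 2)) T ↔ s ∈ H370.zset L T (2 * T) := by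
  have h1 : (s + 1 / 2 : ℂ).re = s.re + 1 / 2 := by simp
  have h2 : (s + 1 / 2 : ℂ).im = s.im := by simp
  have h3 : s + 1 / 2 - 1 / 2 = s := by ring
  constructor
  · rintro ⟨a, b, c, d, e⟩
    rw [h1] at a b
    rw [h2] at c d
    simp only [h3] at e
    exact ⟨by linarith, by linarith, c, d, e⟩
  · rintro ⟨a, b, c, d, e⟩
    refine ⟨by rw [h1]; linarith, by rw [h1]; linarith, by rw [h2]; exact c,
      by rw [h2]; exact d, ?_⟩
    simp only [h3]
    exact e

theorem zeros_shift (L : ℂ → ℂ) (T : ℝ) :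
    zeros (fun z => L (z - 1 / 2)) T = (fun s : ℂ => s + 1 / 2) '' H370.zset L T (2 * T) := by
  ext s
  constructor
  · intro hs
    refine ⟨s - 1 / 2, ?_, by ring⟩
    rw [← mem_shift]
    convert hs using 1
    ring
  · rintro ⟨t, ht, rfl⟩
    exact (mem_shift L T t).mpr ht

theorem inj_shift : Function.Injective (fun s : ℂ => s + 1 / 2) := fun a b h => by
  simpa using h

theorem N_shift (L : ℂ → ℂ) (T : ℝ) :
    N (fun z => L (z - 1 / 2)) T = H370.NN L T (2 * T) := by
  unfold N H370.NN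
  rw [zeros_shift, finsum_mem_image (inj_shift.injOn)]
  refine finsum_congr fun s => finsum_congr fun _ => ?_
  exact order_shift L s

open Pool.Agent.H82R3.EK in
theorem N₀_shift (L : ℂ → ℂ) (T : ℝ) :
    N₀ (fun z => L (z - 1 / 2)) T = cnt L (line T (2 * T)) := by
  unfold N₀ cnt
  have h : {s : ℂ | s ∈ zeros (fun z => L (z - 1 / 2)) T ∧ s.re = 1} =
      (fun s : ℂ => s + 1 / 2) '' {s : ℂ | s ∈ line T (2 * T) ∧ L s = 0} := by
    ext s
    constructor
    · rintro ⟨h1, h2⟩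
      rw [zeros_shift] at h1
      obtain ⟨t, ⟨_, _, h3, h4, h5⟩, rfl⟩ := h1
      refine ⟨t, ⟨⟨?_, h3, h4⟩, h5⟩, rfl⟩
      have h6 : (t + 1 / 2 : ℂ).re = t.re + 1 / 2 := by simp
      rw [h6] at h2
      linarith
    · rintro ⟨t, ⟨⟨h1, h3, h4⟩, h5⟩, rfl⟩
      refine ⟨(mem_shift L T t).mpr ⟨by rw [h1]; norm_num, by rw [h1]; norm_num, h3, h4, h5⟩, ?_⟩
      have h6 : (t + 1 / 2 : ℂ).re = t.re + 1 / 2 := by simp
      rw [h6, h1]
      norm_num
  rw [h, finsum_mem_image (inj_shift.injOn)]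
  refine finsum_congr fun s => finsum_congr fun _ => ?_
  exact order_shift L s

open Pool.Agent.H82R3.EK in
/-- **Main theorem.** Let `D` be odd and squarefree. There are functions `L q` such that for every `q` prime
to `2 D` and every cyclotomic field `K = ℚ(ζ_q)`, `L q` is entire and is for `Re s > 3/2` the Euler product
over all primes `v` of `K` of the local factors of `E_D : y² = x³ - D² x`; and there are constants `κ`, `η`,
`X₀` such that for `X ≥ X₀`, `κ X ≤ Y ≤ X ^ (1 + η)` and `(log X)² ≤ T ≤ X ^ η`, with the weight `1/q²`, at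
least 67.2% of the zeros in `1/2 < Re s < 3/2`, `T < Im s ≤ 2T` of all `L q`, `X < q ≤ Y`, `(q, 2 D) = 1`
(counted with multiplicity) lie on the line `Re s = 1`; the weighted number of zeros is at least `T`. -/
theorem result (D : ℕ) (hD : Odd D) (hsf : Squarefree D) :
    ∃ L : ℕ → ℂ → ℂ,
      (∀ q : ℕ, 1 ≤ q → Nat.Coprime q (2 * D) → Differentiable ℂ (L q) ∧
        ∀ (K : Type) [Field K] [NumberField K] [IsCyclotomicExtension {q} ℚ K] (s : ℂ), 3 / 2 < s.re →
          HasProd (fun v : HeightOneSpectrum (𝓞 K) => factor (curve D (𝓞 K)) s v) (L q s)) ∧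
      ∃ κ η X₀ : ℝ, 1 ≤ κ ∧ 0 < η ∧ 1 ≤ X₀ ∧
        ∀ (X Y : ℕ) (T : ℝ), X₀ ≤ X → κ * X ≤ Y → (Y : ℝ) ≤ (X : ℝ) ^ (1 + η) →
        (Real.log X) ^ 2 ≤ T → T ≤ (X : ℝ) ^ η →
        T ≤ ∑ q ∈ (Finset.Ioc X Y).filter (fun q => Nat.Coprime q (2 * D)),
            (1 / (q : ℝ) ^ 2) * (N (L q) T : ℝ) ∧
        0.672 * ∑ q ∈ (Finset.Ioc X Y).filter (fun q => Nat.Coprime q (2 * D)),
            (1 / (q : ℝ) ^ 2) * (N (L q) T : ℝ) ≤
          ∑ q ∈ (Finset.Ioc X Y).filter (fun q => Nat.Coprime q (2 * D)),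
            (1 / (q : ℝ) ^ 2) * (N₀ (L q) T : ℝ) := by
  classical
  obtain ⟨L, A, hA, hL, K, η, X0, hK, hη, hX0, h⟩ := avg_main D hD hsf
  have hD1 : 1 ≤ D := hD.pos
  refine ⟨fun q s => ∏ᶠ χ : DirichletCharacter ℂ q, L χ.conductor χ.primitiveCharacter (s - 1 / 2), ?_,
    K, η, max X0 3, hK, hη, le_trans hX0 (le_max_left _ _), ?_⟩
  · intro q hq hqM
    have : NeZero q := ⟨by omega⟩
    simp_rw [finprod_eq_prod_of_fintype]
    refine ⟨?_, ?_⟩
    · have h1 : ∀ χ ∈ (Finset.univ : Finset (DirichletCharacter ℂ q)),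
          Differentiable ℂ (fun s : ℂ => L χ.conductor χ.primitiveCharacter (s - 1 / 2)) := by
        intro χ _
        have h2 := (hL χ.conductor χ.primitiveCharacter (Nat.one_le_iff_ne_zero.2 χ.conductor_ne_zero)
          (Nat.Coprime.coprime_dvd_left χ.conductor_dvd_level hqM) χ.primitiveCharacter_isPrimitive).1
        exact h2.comp (by fun_prop)
      exact Differentiable.fun_finsetProd h1
    · intro K _ _ _ s hs
      exact hasProd_euler L (fun q χ h1 h2 h3 => ⟨(hL q χ h1 h2 h3).1, (hL q χ h1 h2 h3).2.1⟩) q hqM K s hs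
  · intro X Y T a1 a2 a3 a4 a5
    have hX3 : (3 : ℝ) ≤ X := le_trans (le_max_right _ _) a1
    obtain ⟨b1, b2⟩ := h X Y T (le_trans (le_max_left _ _) a1) a2 a3 a4 a5
    have hT1 : 1 ≤ T := by
      refine le_trans ?_ a4
      have h1 : 1 ≤ Real.log X := by
        rw [Real.le_log_iff_exp_le (by linarith)]
        exact le_trans (by have := Real.exp_one_lt_d9; linarith) hX3
      nlinarith
    -- for a single `q`
    have key : ∀ q ∈ (Finset.Ioc X Y).filter (fun q => Nat.Coprime q (2 * D)),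
        ((N (fun s => ∏ᶠ χ : DirichletCharacter ℂ q, L χ.conductor χ.primitiveCharacter (s - 1 / 2)) T : ℕ) : ℝ) =
          SS (fun q χ => (H370.NN (L q χ) T (2 * T) : ℝ)) q ∧
        SS (fun q χ => (H370.Ns (L q χ) T (2 * T) : ℝ)) q ≤
          ((N₀ (fun s => ∏ᶠ χ : DirichletCharacter ℂ q, L χ.conductor χ.primitiveCharacter (s - 1 / 2)) T : ℕ) : ℝ) := by
      intro q hq
      rw [Finset.mem_filter, Finset.mem_Ioc] at hq
      obtain ⟨⟨hq1, hq2⟩, hqM⟩ := hq
      have : NeZero q := ⟨by omega⟩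
      have hG : ∀ χ : DirichletCharacter ℂ q, Differentiable ℂ (L χ.conductor χ.primitiveCharacter) ∧
          ∃ a : ℕ → ℂ, H385.GoodD 2 A ((χ.conductor * D : ℕ) : ℝ) (L χ.conductor χ.primitiveCharacter) a := by
        intro χ
        have h2 := hL χ.conductor χ.primitiveCharacter (Nat.one_le_iff_ne_zero.2 χ.conductor_ne_zero)
          (Nat.Coprime.coprime_dvd_left χ.conductor_dvd_level hqM) χ.primitiveCharacter_isPrimitive
        exact ⟨h2.1, h2.2.2⟩
      have hQ : ∀ χ : DirichletCharacter ℂ q, (1 : ℝ) ≤ ((χ.conductor * D : ℕ) : ℝ) := by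
        intro χ
        have : 1 ≤ χ.conductor * D := Nat.mul_pos (Nat.pos_of_ne_zero χ.conductor_ne_zero) hD1
        exact_mod_cast this
      have hfin : ∀ χ : DirichletCharacter ℂ q,
          (H370.zset (L χ.conductor χ.primitiveCharacter) T (2 * T)).Finite := by
        intro χ
        obtain ⟨_, a, ha⟩ := hG χ
        exact H385.zset_finite_D hA (hQ χ) ha T (2 * T) hT1
      have han : ∀ (χ : DirichletCharacter ℂ q) (s : ℂ), AnalyticAt ℂ (L χ.conductor χ.primitiveCharacter) s :=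
        fun χ s => (hG χ).1.analyticAt s
      have htop : ∀ (χ : DirichletCharacter ℂ q) (s : ℂ),
          analyticOrderAt (L χ.conductor χ.primitiveCharacter) s ≠ ⊤ := by
        intro χ s
        obtain ⟨_, a, ha⟩ := hG χ
        have h1 : L χ.conductor χ.primitiveCharacter (⟨2, 1⟩ : ℂ) ≠ 0 := ha.nzr _ (by norm_num) (by norm_num)
        exact H370.Loc.order_ne_top (K := Set.univ) isPreconnected_univ (fun z _ => han χ z)
          (Set.mem_univ _) h1 (Set.mem_univ s)
      have e1 : (fun s : ℂ => ∏ᶠ χ : DirichletCharacter ℂ q, L χ.conductor χ.primitiveCharacter (s - 1 / 2)) =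
          fun s : ℂ => (fun z : ℂ => ∏ χ : DirichletCharacter ℂ q, L χ.conductor χ.primitiveCharacter z) (s - 1 / 2) := by
        funext s
        exact finprod_eq_prod_of_fintype _
      rw [e1, N_shift (fun z : ℂ => ∏ χ : DirichletCharacter ℂ q, L χ.conductor χ.primitiveCharacter z) T,
        N₀_shift (fun z : ℂ => ∏ χ : DirichletCharacter ℂ q, L χ.conductor χ.primitiveCharacter z) T, NN_eq]
      unfold SS
      rw [finsum_eq_sum_of_fintype, finsum_eq_sum_of_fintype]
      rw [cnt_prod Finset.univ (fun χ : DirichletCharacter ℂ q => L χ.conductor χ.primitiveCharacter)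
        (W := strip T (2 * T)) (fun χ _ s _ => han χ s) (fun χ _ s _ => htop χ s) (fun χ _ => ?_),
        cnt_prod Finset.univ (fun χ : DirichletCharacter ℂ q => L χ.conductor χ.primitiveCharacter)
        (W := line T (2 * T)) (fun χ _ s _ => han χ s) (fun χ _ s _ => htop χ s) (fun χ _ => ?_)]
      · refine ⟨?_, ?_⟩
        · push_cast
          exact Finset.sum_congr rfl fun χ _ => by rw [NN_eq]
        · push_cast
          exact Finset.sum_le_sum fun χ _ => by exact_mod_cast Ns_le _ T (2 * T) (hfin χ)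
      · refine (hfin χ).subset ?_
        rintro s ⟨⟨h1, h2, h3⟩, h4⟩
        exact ⟨by rw [h1]; norm_num, by rw [h1]; norm_num, h2, h3, h4⟩
      · refine (hfin χ).subset ?_
        rintro s ⟨⟨h1, h2, h3, h4⟩, h5⟩
        exact ⟨h1, h2, h3, h4, h5⟩
    have k1 : ∑ q ∈ (Finset.Ioc X Y).filter (fun q => Nat.Coprime q (2 * D)),
        (1 / (q : ℝ) ^ 2) * ((N (fun s => ∏ᶠ χ : DirichletCharacter ℂ q,
          L χ.conductor χ.primitiveCharacter (s - 1 / 2)) T : ℕ) : ℝ) =
        ∑ q ∈ (Finset.Ioc X Y).filter (fun q => Nat.Coprime q (2 * D)),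
        (1 / (q : ℝ) ^ 2) * SS (fun q χ => (H370.NN (L q χ) T (2 * T) : ℝ)) q :=
      Finset.sum_congr rfl fun q hq => by rw [(key q hq).1]
    have k2 : ∑ q ∈ (Finset.Ioc X Y).filter (fun q => Nat.Coprime q (2 * D)),
        (1 / (q : ℝ) ^ 2) * SS (fun q χ => (H370.Ns (L q χ) T (2 * T) : ℝ)) q ≤
        ∑ q ∈ (Finset.Ioc X Y).filter (fun q => Nat.Coprime q (2 * D)),
        (1 / (q : ℝ) ^ 2) * ((N₀ (fun s => ∏ᶠ χ : DirichletCharacter ℂ q,
          L χ.conductor χ.primitiveCharacter (s - 1 / 2)) T : ℕ) : ℝ) :=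
      Finset.sum_le_sum fun q hq => mul_le_mul_of_nonneg_left (key q hq).2 (by positivity)
    rw [k1]
    exact ⟨b1, b2.trans k2⟩

end Pool.Agent.Results.MP_fb225e_nt.CyclotomicFamily672
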