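import Pool.Agent.H313R3.GK.Y

/-!
# Zeros of `L(E/K, s)`, `K` multiquadratic, in every window `[x, x (log x)^B]`

Let `E/ℚ` be an elliptic curve and `K` a multiquadratic number field of degree `n = 2^r` (or `K = ℚ`).
Then `L(E/K, s) = ∏_d L(E^(d), s)`, where `E^(d)` runs over the `n` quadratic twists of `E` which become
isomorphic to `E` over `K`, and by modularity each factor is `L(f_d, s)` for a newform
`f_d ∈ S_2(Γ_0(N_d))` with rational coefficients.  We treat arbitrary finite families `(f_i)` of forms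
`f_i ∈ S_2(Γ_0(N_i))` with real coefficients, `a(1) = 1`, and a Fricke sign.

Let `b(m)` be the coefficients of `1 / ∏ L(f_i, s)` and `M(y) = ∑_{m ≤ y} b(m)`.  For `B > 2 n`, `n` the
number of forms, every zero `ρ` of `∏ Λ(f_i, s)` with `Re ρ > 0`, of multiplicity at least `r`, forces
`|M(y)| ≥ c y^{Re ρ} (log y)^{r-1}` for some `y` in every window `[x, x (log x)^B]`, `x` large; in
particular `|M(y)| ≥ c y` unconditionally, and `|M(y)| ≥ c y (log y)^{r-1}` if `r` is the order of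
vanishing at the central point.  Bounds for `M` on an arbitrarily sparse sequence of such windows imply
the Riemann hypothesis for `L(E/K, s)`.

Proof: modules `Pool.Agent.H313R3.GK.A` to `Y`.
-/

set_option autoImplicit false

namespace Pool.Agent.Results.MP_fb225e_nt.LocalOscillation

open UpperHalfPlane MatrixGroups CongruenceSubgroup Filter

/-- `f` has real Fourier coefficients `a(n)` with `a(1) = 1` and satisfies
`f(-1/(Nτ)) = -ε N τ² f(τ)`, where `ε = ± 1` is the root number. -/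
structure IsNormalized (N : ℕ) (f : CuspForm (Gamma0 N : Subgroup (GL (Fin 2) ℝ)) 2) (ε : ℝ) : Prop where
  one : (qExpansion 1 f).coeff 1 = 1
  real : ∀ n, ((qExpansion 1 f).coeff n).im = 0
  sign : ε = 1 ∨ ε = -1
  fricke : ∀ τ τ' : ℍ, (τ' : ℂ) * ((N : ℂ) * (τ : ℂ)) = -1 →
    f τ' = -(ε : ℂ) * (N : ℂ) * (τ : ℂ) ^ 2 * f τ

/-- the Fourier coefficients of `f` as an arithmetic function; the product of arithmetic functions is
the Dirichlet convolution -/
noncomputable def coeffs {N : ℕ} (f : CuspForm (Gamma0 N : Subgroup (GL (Fin 2) ℝ)) 2) : ArithmeticFunction ℂ :=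
  ⟨fun n => if n = 0 then 0 else (qExpansion 1 f).coeff n, if_pos rfl⟩

/-- `Λ` is the completed L-function of `f`: it is entire and
`Λ(s) = N^(s/2) (2π)^(-s) Γ(s) ∑ a(n) n^(-s)` for `Re s > 2`. -/
def IsCompleted (N : ℕ) (f : CuspForm (Gamma0 N : Subgroup (GL (Fin 2) ℝ)) 2) (Λ : ℂ → ℂ) : Prop :=
  Differentiable ℂ Λ ∧ ∀ s : ℂ, 2 < s.re →
    Λ s = ((Real.sqrt N / (2 * Real.pi) : ℝ) : ℂ) ^ s * Complex.Gamma s * LSeries (coeffs f) s

/-- `M(y) = ∑_{m ≤ y} b(m)` -/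
noncomputable def mertens (b : ArithmeticFunction ℂ) (y : ℝ) : ℂ := ∑ n ∈ Finset.Icc 1 ⌊y⌋₊, b n

/-- the window `[x, x (log x)^B]` -/
def window (B x : ℝ) : Set ℝ := Set.Icc x (x * Real.log x ^ B)

theorem result (ι : Type) [Fintype ι] [Nonempty ι] (N : ι → ℕ) [∀ i, NeZero (N i)]
    (f : ∀ i, CuspForm (Gamma0 (N i) : Subgroup (GL (Fin 2) ℝ)) 2) (ε : ι → ℝ)
    (hf : ∀ i, IsNormalized (N i) (f i) (ε i)) :
    ∃ Λ : ι → ℂ → ℂ, (∀ i, IsCompleted (N i) (f i) (Λ i)) ∧ (∀ i s, Λ i (2 - s) = ε i * Λ i s) ∧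
      (∃ b : ArithmeticFunction ℂ, (∏ i, coeffs (f i)) * b = 1) ∧
      ∀ b : ArithmeticFunction ℂ, (∏ i, coeffs (f i)) * b = 1 → ∀ B : ℝ, 2 * Fintype.card ι < B →
        -- unconditional lower bound in every window
        (∃ c : ℝ, 0 < c ∧ ∀ᶠ x : ℝ in atTop, ∃ y ∈ window B x, c * y ≤ ‖mertens b y‖) ∧
        -- every zero is visible in every window, with its multiplicity
        (∀ (ρ : ℂ) (r : ℕ), 0 < ρ.re → 1 ≤ r → (r : ℕ∞) ≤ analyticOrderAt (fun s => ∏ i, Λ i s) ρ →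
          ∃ c : ℝ, 0 < c ∧ ∀ᶠ x : ℝ in atTop, ∃ y ∈ window B x,
            c * (y ^ ρ.re * Real.log y ^ (r - 1)) ≤ ‖mertens b y‖) ∧
        -- a power saving on a sparse sequence of windows gives a zero-free half-plane
        (∀ δ : ℝ, 1 ≤ δ → (∀ η : ℝ, 0 < η → ∃ᶠ x : ℝ in atTop, ∀ y ∈ window B x,
            ‖mertens b y‖ ≤ y ^ (δ + η)) →
          ∀ ρ : ℂ, (∏ i, Λ i ρ) = 0 → 2 - δ ≤ ρ.re ∧ ρ.re ≤ δ) ∧
        -- a bound `o(y (log y)^j)` on a sparse sequence of windows gives the Riemann hypothesis with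
        -- multiplicities at most `j`
        (∀ j : ℕ, 1 ≤ j → (∀ η : ℝ, 0 < η → ∃ᶠ x : ℝ in atTop, ∀ y ∈ window B x,
            ‖mertens b y‖ ≤ η * (y * Real.log y ^ j)) →
          ∀ ρ : ℂ, (∏ i, Λ i ρ) = 0 → ρ.re = 1 ∧ analyticOrderAt (fun s => ∏ i, Λ i s) ρ ≤ j) := by
  obtain ⟨Λ, G, h1, h2, h3, d⟩ := H313.GK.fam f ε fun i => ⟨(hf i).one, (hf i).real, (hf i).sign, (hf i).fricke⟩
  have hr : 1 ≤ Fintype.card ι := Fintype.card_pos
  refine ⟨Λ, fun i => ⟨h1 i, h2 i⟩, h3, H313.GK.exists_inv _ d.one, fun b hb B hB => ?_⟩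
  have hab := H313.GK.dinv_of (a := ∏ i, coeffs (f i)) hb
  refine ⟨?_, fun ρ r hρ hr1 hr2 => d.osc hr hab hB hρ hr1 hr2, fun δ hδ H ρ hz => ?_, fun j hj H ρ hz => ?_⟩
  · obtain ⟨c, hc, h⟩ := d.osc0 hr hab hB
    refine ⟨c, hc, ?_⟩
    filter_upwards [h] with x hx
    obtain ⟨y, hy, h4⟩ := hx
    refine ⟨y, hy, ?_⟩
    rw [div_self (two_ne_zero), Real.rpow_one] at h4
    exact h4
  · exact d.crit_pow hr hab hB (by linarith) H ρ hz
  · have h1 := d.crit hr hab hB j hj (fun η hη => (H η hη).mono fun x hx y hy => by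
      have := hx y hy
      rw [div_self (two_ne_zero), Real.rpow_one]
      exact this) ρ hz
    rwa [div_self (two_ne_zero)] at h1

end Pool.Agent.Results.MP_fb225e_nt.LocalOscillation
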