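import Pool.Agent.H480R3.Seg.RHE

/-!
# A zero of `L(E/K, s)` with `Re s > 1 + δ` makes the products of point counts oscillate like
`exp(C x^δ)`

Let `E : y² = x³ + a x + b` be an elliptic curve over `ℚ`, `K` a Galois extension of `ℚ` and `ρ` a
complex representation of its Galois group with real character. Suppose that `L(E ⊗ ρ, s)`
(without the finitely many Euler factors at the primes dividing `2 (-4 a³ - 27 b²)` or the
discriminant of `K`) continues to an entire function `F`. If `ρ` is the permutation representation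
on the embeddings of a subfield `k` of `K`, this is `L(E/k, s)`, so that every number field is
covered, and the number `|det(1 - (a_p / p) ρ(Frob_p) + (1 / p) ρ(Frob_p)²)|` is the product of
`#E(k_v) / N v` over the places `v` of `k` above `p`. Let `EP(x)` be the product of these numbers
over the good primes `p ≤ x`, and let `0 ≤ δ < 1/2`.

If `F` has a zero with real part greater than `1 + δ`, then, for every `C`,
`EP(x) > exp(C x^δ)` for infinitely many `x`; if moreover `F` has no real zero greater than
`1 + δ`, then, for every `C`, also `EP(x) < exp(-C x^δ)` for infinitely many `x`.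

So a bound from above `EP(x) ≤ exp(C x^δ)` for all large `x`, with one `C`, implies that all
zeros of `F` satisfy `Re s ≤ 1 + δ`; no bound from below and no zero-free interval is needed.
-/

set_option autoImplicit false

open Filter

namespace Pool.Agent.Results.MP_fb225e_nt.PowerOscillation

open Pool.Agent.H480R3.Seg.RHE

/-- See the introduction. -/
theorem result (a b : ℤ) {K : Type} [Field K] [NumberField K] [IsGalois ℚ K] {n : ℕ}
    (ρ : (K ≃ₐ[ℚ] K) →* Matrix.GeneralLinearGroup (Fin n) ℂ)
    (hρ : ∀ g, (ρ g : Matrix (Fin n) (Fin n) ℂ).trace.im = 0)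
    (frob : ℕ → (K ≃ₐ[ℚ] K))
    (_hfrob : ∀ p, Pool.Agent.H480R3.Seg.Sym.GoodP K a b p →
      Pool.Agent.H480R3.Seg.Artin.IsFrob K p (frob p))
    (F : ℂ → ℂ) (hF : IsL a b ρ frob F) (δ : ℝ) (hδ0 : 0 ≤ δ) (hδ : δ < 1 / 2)
    (hz : ∃ z : ℂ, 1 + δ < z.re ∧ F z = 0) :
    (∀ C : ℝ, ∃ᶠ x : ℕ in atTop, Real.exp (C * (x : ℝ) ^ δ) < EP a b ρ frob x) ∧
    ((∀ σ : ℝ, 1 + δ < σ → F σ ≠ 0) →
      ∀ C : ℝ, ∃ᶠ x : ℕ in atTop, EP a b ρ frob x < Real.exp (-(C * (x : ℝ) ^ δ))) :=
  main hρ hF δ hδ0 hδ hz

end Pool.Agent.Results.MP_fb225e_nt.PowerOscillation
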